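import Mathlib

set_option autoImplicit false

/-!
# The `k`-th upper chromatic numbers of the real line and of the integers

For every `k` the `k`-th upper chromatic number of the real line equals that of the integers.

Idea: the finitely many entries of an array `D` of positive reals are nonzero elements of `ℝ` as a
vector space over `ℚ`, so some `ℚ`-linear map `f : ℝ → ℚ` vanishes at none of them. If `N` is a
common denominator of the numbers `f (D i j)` and `T` is a colouring of `ℤ` for the array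
`|N * f (D i j)|`, then `x ↦ T ⌊N * f x⌋` is a `D`-colouring of `ℝ`.
-/

namespace Pool.Agent.Results.MP_c23e02_co.ChiKRealsIntegers

/-- `S` is `D`-colorable: there is a map `T` from `S` to the `m` colors such that no two points of
`S` at distance `D i j` both have color `j`. Column `j` of the array `D` lists the `k` distances
that are forbidden inside the color class `j`. -/
def Colorable (S : Set ℝ) {k m : ℕ} (D : Fin k → Fin m → ℝ) : Prop :=
  ∃ T : S → Fin m, ∀ (i : Fin k) (j : Fin m) (x y : S),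
    |(x : ℝ) - (y : ℝ)| = D i j → ¬ (T x = j ∧ T y = j)

/-- The `k`-th upper chromatic number of `S`: the least positive integer `m` such that `S` is
`D`-colorable for every `k × m` array `D` of positive reals, and `∞` (i.e. `⊤`) if there is no
such `m`. -/
noncomputable def chi (k : ℕ) (S : Set ℝ) : ℕ∞ :=
  sInf {c : ℕ∞ | ∃ m : ℕ, 1 ≤ m ∧ c = (m : ℕ∞) ∧
    ∀ D : Fin k → Fin m → ℝ, (∀ i j, 0 < D i j) → Colorable S D}

/-- From colorings of `ℤ` to colorings of `ℝ`. -/
theorem colorable_real {k m : ℕ}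
    (h : ∀ D : Fin k → Fin m → ℝ, (∀ i j, 0 < D i j) →
      Colorable (Set.range ((↑) : ℤ → ℝ)) D)
    (D : Fin k → Fin m → ℝ) (hD : ∀ i j, 0 < D i j) : Colorable Set.univ D := by
  classical
  -- a linear functional that vanishes at no entry of the array
  obtain ⟨f, hf⟩ := Module.exists_dual_forall_apply_ne_zero (K := ℚ) (M := ℝ)
    (fun p : Fin k × Fin m => D p.1 p.2) (fun p => (hD p.1 p.2).ne')
  -- a common denominator
  set N : ℕ := ∏ p : Fin k × Fin m, (f (D p.1 p.2)).den with hN
  have hNpos : 0 < N := Finset.prod_pos fun p _ => (f (D p.1 p.2)).den_pos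
  have hint : ∀ i j, ∃ e : ℤ, (N : ℚ) * f (D i j) = (e : ℚ) := by
    intro i j
    have hdvd : (f (D i j)).den ∣ N :=
      Finset.dvd_prod_of_mem (fun p : Fin k × Fin m => (f (D p.1 p.2)).den) (Finset.mem_univ (i, j))
    obtain ⟨c, hc⟩ := hdvd
    refine ⟨c * (f (D i j)).num, ?_⟩
    rw [hc]
    push_cast
    have h1 := Rat.den_mul_eq_num (f (D i j))
    calc ((f (D i j)).den : ℚ) * c * f (D i j) = c * (((f (D i j)).den : ℚ) * f (D i j)) := by ring
      _ = c * (f (D i j)).num := by rw [h1]
  choose e he using hint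
  have he0 : ∀ i j, e i j ≠ 0 := by
    intro i j h0
    have h1 := he i j
    rw [h0] at h1
    have h2 : (N : ℚ) ≠ 0 := by exact_mod_cast hNpos.ne'
    have h3 := hf (i, j)
    simp only [Int.cast_zero, mul_eq_zero] at h1
    rcases h1 with h1 | h1
    · exact h2 h1
    · exact h3 h1
  obtain ⟨T, hT⟩ := h (fun i j => |(e i j : ℝ)|) (fun i j => by
    have : (e i j : ℝ) ≠ 0 := by exact_mod_cast he0 i j
    exact abs_pos.2 this)
  refine ⟨fun x => T ⟨((⌊(N : ℚ) * f x⌋ : ℤ) : ℝ), Set.mem_range_self _⟩, ?_⟩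
  intro i j x y hxy
  apply hT i j
  simp only
  have hfl : ∀ u v : ℝ, u - v = D i j → ⌊(N : ℚ) * f u⌋ - ⌊(N : ℚ) * f v⌋ = e i j := by
    intro u v huv
    have h1 : (N : ℚ) * f u = (N : ℚ) * f v + (e i j : ℤ) := by
      rw [← he i j, ← huv, map_sub]
      ring
    rw [h1, Int.floor_add_intCast]
    ring
  rcases abs_choice ((x : ℝ) - y) with hc | hc
  · have h1 := hfl x y (by rw [← hxy, hc])
    rw [← h1]
    push_cast
    rfl
  · have h1 := hfl y x (by rw [← hxy, hc]; ring)
    rw [← h1, abs_sub_comm]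
    push_cast
    rfl

/-- From colorings of `ℝ` to colorings of `ℤ`. -/
theorem colorable_int {k m : ℕ} (D : Fin k → Fin m → ℝ) (h : Colorable Set.univ D) :
    Colorable (Set.range ((↑) : ℤ → ℝ)) D := by
  obtain ⟨T, hT⟩ := h
  exact ⟨fun x => T ⟨x, Set.mem_univ _⟩, fun i j x y hxy =>
    hT i j ⟨x, Set.mem_univ _⟩ ⟨y, Set.mem_univ _⟩ hxy⟩

/-- **Answer to the question: yes.** For every positive integer `k` one has
`χ_k(ℝ) = χ_k(ℤ)`. -/
theorem result : ∀ k : ℕ, 1 ≤ k → chi k Set.univ = chi k (Set.range ((↑) : ℤ → ℝ)) := by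
  intro k _
  unfold chi
  congr 1
  ext c
  constructor
  · rintro ⟨m, hm, hc, h⟩
    exact ⟨m, hm, hc, fun D hD => colorable_int D (h D hD)⟩
  · rintro ⟨m, hm, hc, h⟩
    exact ⟨m, hm, hc, fun D hD => colorable_real h D hD⟩

end Pool.Agent.Results.MP_c23e02_co.ChiKRealsIntegers
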